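import Pool.Agent.H38.LR.T3997.Q120.CL.C2

/-!
# Levels close to `k`: the initial segment has too few numbers without small prime factors
-/

set_option autoImplicit false

namespace Pool.Agent.Q120.CL

open Finset Filter Topology Pool.Agent.Q120.MG

/-- The constant of Granville. -/
noncomputable def gr : ℝ := 2 * Real.exp (-Real.eulerMascheroniConstant)

theorem gr_pos : 0 < gr := by
  unfold gr
  positivity

theorem gr_le : gr ≤ 2 := by
  unfold gr
  have h1 := Real.one_half_lt_eulerMascheroniConstant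
  have h2 : Real.exp (-Real.eulerMascheroniConstant) ≤ 1 := by
    rw [← Real.exp_zero]
    exact Real.exp_le_exp.2 (by linarith)
  linarith

theorem gran {ε : ℝ} (hε : 0 < ε) (hε1 : ε < 1) : ∃ δ : ℝ, 0 < δ ∧ δ < 1 ∧ ∀ᶠ k : ℕ in atTop, ∀ z : ℕ, (k : ℝ) ^ δ ≤ z →
    (z : ℝ) ≤ k → (Wf z 0 ⌊gr * (1 - ε) * bud k⌋₊ : ℝ) ≤ (1 - ε / 2) * (Vf z * bud k) := by
  obtain ⟨e, he⟩ : ∃ e, e = ε / 16 := ⟨_, rfl⟩
  have he0 : 0 < e := by rw [he]; linarith
  have he1 : e ≤ 1 / 16 := by rw [he]; linarith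
  obtain ⟨C, z₁, hC, hz₁, hup⟩ := Fr_upper
  obtain ⟨δ, hδ⟩ : ∃ δ, δ = max (1 / 2) (1 / (1 + e / (8 * C))) := ⟨_, rfl⟩
  have hδ0 : 1 / 2 ≤ δ := by rw [hδ]; exact le_max_left _ _
  have hδ1 : δ < 1 := by
    rw [hδ]
    refine max_lt (by norm_num) ?_
    rw [div_lt_one (by positivity)]
    have : 0 < e / (8 * C) := by positivity
    linarith
  have hδC : C * (2 / δ - 2) ≤ e / 4 := by
    have h1 : 1 / (1 + e / (8 * C)) ≤ δ := by rw [hδ]; exact le_max_right _ _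
    have h2 : 1 / δ ≤ 1 + e / (8 * C) := by
      rw [div_le_iff₀ (by linarith)]
      rw [div_le_iff₀ (by positivity)] at h1
      linarith
    have h3 : 2 / δ - 2 ≤ 2 * (e / (8 * C)) := by
      have : 2 / δ = 2 * (1 / δ) := by ring
      rw [this]
      linarith
    calc C * (2 / δ - 2) ≤ C * (2 * (e / (8 * C))) := mul_le_mul_of_nonneg_left h3 (by linarith)
      _ = e / 4 := by
        field_simp
        ring
  obtain ⟨z₃, hz₃, hstar⟩ := star (a := 3 / 2) (S := 6) (η := e / 4) (by norm_num) (by positivity)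
  obtain ⟨E, hE⟩ : ∃ E, E = Real.exp (-Real.eulerMascheroniConstant) := ⟨_, rfl⟩
  have hE0 : 0 < E := by rw [hE]; positivity
  have hgr : gr = 2 * E := by rw [hE]; rfl
  obtain ⟨c₀, hc₀⟩ : ∃ c₀, c₀ = E * (1 - ε) / 4 := ⟨_, rfl⟩
  have hc₀0 : 0 < c₀ := by
    rw [hc₀]
    have : 0 < 1 - ε := by linarith
    positivity
  obtain ⟨c₁, hc₁⟩ : ∃ c₁, c₁ = -Real.log c₀ := ⟨_, rfl⟩
  -- conditions on z
  have hlog : Tendsto (fun z : ℕ => Real.log (z : ℝ)) atTop atTop := Real.tendsto_log_atTop.comp hcast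
  have e3 : ∀ᶠ z : ℕ in atTop, C / Real.log z ≤ e / 8 := by
    have h1 : Tendsto (fun z : ℕ => C / Real.log (z : ℝ)) atTop (𝓝 0) :=
      Tendsto.div_atTop tendsto_const_nhds hlog
    exact h1.eventually (ge_mem_nhds (by positivity))
  have e4 : ∀ᶠ z : ℕ in atTop, 1 / c₀ ≤ (z : ℝ) ^ ((1 : ℝ) / 2) :=
    ((tendsto_rpow_atTop (by norm_num : (0 : ℝ) < 1 / 2)).comp hcast).eventually (eventually_ge_atTop _)
  have e5 : ∀ᶠ z : ℕ in atTop, E * (1 - e) ≤ Vf z * Real.log z := by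
    refine Vf_lim.eventually (le_mem_nhds ?_)
    rw [← hE]
    nlinarith
  have eall := (((((eventually_ge_atTop z₁).and (eventually_ge_atTop z₃)).and (hcast.eventually_ge_atTop (8 / e))).and
    (hlog.eventually_ge_atTop ((1 + e) * |c₁| / e + |c₁| + 1))).and ((e3.and e4).and e5))
  obtain ⟨Z, hZ⟩ := eventually_atTop.1 eall
  refine ⟨δ, by linarith, hδ1, ?_⟩
  have e1 : Tendsto (fun k : ℕ => (k : ℝ) ^ δ) atTop atTop := (tendsto_rpow_atTop (by linarith)).comp hcast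
  have e2 : Tendsto (fun k : ℕ => c₀ * (k : ℝ) ^ 2) atTop atTop :=
    Tendsto.const_mul_atTop hc₀0 ((tendsto_pow_atTop (by norm_num)).comp hcast)
  filter_upwards [e1.eventually_ge_atTop (Z : ℝ), e1.eventually_ge_atTop 2, e2.eventually_ge_atTop 1, eventually_gt_atTop 0]
    with k h1 h2 h3 hk0 z hz hzk
  have hk0' : (0 : ℝ) < k := by exact_mod_cast hk0
  have hzZ : Z ≤ z := by exact_mod_cast h1.trans hz
  obtain ⟨⟨⟨⟨hzz₁, hzz₃⟩, hz8⟩, hlz1⟩, ⟨hK8, hzc⟩, hVz⟩ := hZ z hzZ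
  have hzr : (2 : ℝ) ≤ z := h2.trans hz
  have hz0 : (0 : ℝ) < z := by linarith
  have hz1 : (1 : ℝ) ≤ z := by linarith
  obtain ⟨lz, hlz⟩ : ∃ lz, lz = Real.log (z : ℝ) := ⟨_, rfl⟩
  rw [← hlz] at hlz1 hK8 hVz
  have hlz0 : 0 < lz := by rw [hlz]; exact Real.log_pos (by linarith)
  obtain ⟨K, hK⟩ : ∃ K, K = C / lz := ⟨_, rfl⟩
  rw [← hK] at hK8
  have hK0 : 0 ≤ K := by rw [hK]; positivity
  have hKz : K * lz = C := by rw [hK]; field_simp
  have hF : ∀ t : ℝ, 1 ≤ t → Fr z t ≤ 1 + K * t := by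
    intro t ht
    have h1 := hup z hzz₁ t ht
    rw [← hlz] at h1
    have h2 : C * (t / lz) = K * t := by rw [hK]; ring
    rw [h2] at h1
    exact h1
  have hb := bud_nonneg k
  -- the window
  obtain ⟨t, ht⟩ : ∃ t, t = ⌊gr * (1 - ε) * bud k⌋₊ := ⟨_, rfl⟩
  rw [← ht]
  have hX0 : 0 ≤ gr * (1 - ε) * bud k := by
    have h4 := gr_pos
    have h5 : 0 ≤ 1 - ε := by linarith
    positivity
  have ht1 : (t : ℝ) ≤ gr * (1 - ε) * bud k := by rw [ht]; exact Nat.floor_le hX0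
  have ht2 : gr * (1 - ε) * bud k < t + 1 := by rw [ht]; exact Nat.lt_floor_add_one _
  have ht3 : c₀ * (k : ℝ) ^ 2 ≤ t := by
    have h4 : 2 * (c₀ * (k : ℝ) ^ 2) ≤ gr * (1 - ε) * bud k := by
      have h5 := bud_lower k
      have h6 : 0 ≤ 2 * E * (1 - ε) := by
        have : 0 ≤ 1 - ε := by linarith
        positivity
      calc 2 * (c₀ * (k : ℝ) ^ 2) = 2 * E * (1 - ε) * ((k : ℝ) ^ 2 / 4) := by rw [hc₀]; ring
        _ ≤ 2 * E * (1 - ε) * bud k := mul_le_mul_of_nonneg_left h5 h6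
        _ = gr * (1 - ε) * bud k := by rw [hgr]
    linarith
  have ht4 : (t : ℝ) ≤ 2 * (k : ℝ) ^ 2 := by
    refine ht1.trans ?_
    have h5 := bud_upper k
    have h6 := gr_le
    have h7 : gr * (1 - ε) ≤ 2 := by nlinarith [gr_pos]
    calc gr * (1 - ε) * bud k ≤ 2 * bud k := mul_le_mul_of_nonneg_right h7 hb
      _ ≤ 2 * (k : ℝ) ^ 2 := by linarith
  have hk2 : 0 < (k : ℝ) ^ 2 := by positivity
  have ht0 : (0 : ℝ) < t := lt_of_lt_of_le (by positivity) ht3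
  have hlk : δ * Real.log k ≤ lz := by
    have h4 := Real.log_le_log (by positivity) hz
    rw [Real.log_rpow hk0', ← hlz] at h4
    exact h4
  have hlk' : 2 * Real.log k ≤ 2 / δ * lz := by
    rw [div_mul_eq_mul_div, le_div_iff₀ (by linarith)]
    linarith
  have hlzk : lz ≤ Real.log k := by
    rw [hlz]
    exact Real.log_le_log hz0 hzk
  have hlt1 : Real.log t ≤ Real.log 2 + 2 * Real.log k := by
    have h4 := Real.log_le_log ht0 ht4
    rw [Real.log_mul (by norm_num) hk2.ne', Real.log_pow] at h4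
    push_cast at h4
    exact h4
  have hlt2 : 2 * lz - c₁ ≤ Real.log t := by
    have h4 := Real.log_le_log (by positivity) ht3
    rw [Real.log_mul hc₀0.ne' hk2.ne', Real.log_pow] at h4
    push_cast at h4
    rw [hc₁]
    linarith
  have hlog2 : Real.log 2 ≤ 1 := by linarith [Real.log_two_lt_d9]
  -- the range
  have hr1 : (z : ℝ) ^ ((3 : ℝ) / 2) ≤ t := by
    have h4 : (z : ℝ) ^ 2 = (z : ℝ) ^ ((3 : ℝ) / 2) * (z : ℝ) ^ ((1 : ℝ) / 2) := by
      rw [← Real.rpow_add hz0, ← Real.rpow_natCast]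
      norm_num
    have h5 : 1 ≤ c₀ * (z : ℝ) ^ ((1 : ℝ) / 2) := by
      rw [div_le_iff₀ hc₀0] at hzc
      linarith
    have h6 : 0 ≤ (z : ℝ) ^ ((3 : ℝ) / 2) := by positivity
    calc (z : ℝ) ^ ((3 : ℝ) / 2) ≤ (z : ℝ) ^ ((3 : ℝ) / 2) * (c₀ * (z : ℝ) ^ ((1 : ℝ) / 2)) := le_mul_of_one_le_right h6 h5
      _ = c₀ * (z : ℝ) ^ 2 := by rw [h4]; ring
      _ ≤ c₀ * (k : ℝ) ^ 2 := mul_le_mul_of_nonneg_left (pow_le_pow_left₀ hz0.le hzk 2) hc₀0.le
      _ ≤ t := ht3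
  have hr2 : (t : ℝ) ≤ (z : ℝ) ^ (6 : ℝ) := by
    have h4 : (k : ℝ) ≤ (z : ℝ) ^ 2 := by
      have h5 : (k : ℝ) ^ ((1 : ℝ) / 2) ≤ z := by
        refine le_trans (Real.rpow_le_rpow_of_exponent_le ?_ hδ0) hz
        exact_mod_cast hk0
      have h6 : ((k : ℝ) ^ ((1 : ℝ) / 2)) ^ 2 = k := by
        rw [← Real.rpow_natCast, ← Real.rpow_mul hk0'.le]
        norm_num
      calc (k : ℝ) = ((k : ℝ) ^ ((1 : ℝ) / 2)) ^ 2 := h6.symm
        _ ≤ (z : ℝ) ^ 2 := pow_le_pow_left₀ (by positivity) h5 2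
    have h5 : (z : ℝ) ^ (6 : ℝ) = z ^ 6 := by
      rw [← Real.rpow_natCast]
      norm_num
    rw [h5]
    calc (t : ℝ) ≤ 2 * (k : ℝ) ^ 2 := ht4
      _ ≤ z ^ 2 * ((z : ℝ) ^ 2) ^ 2 := mul_le_mul (by nlinarith) (pow_le_pow_left₀ hk0'.le h4 2) (by positivity) (by positivity)
      _ = (z : ℝ) ^ 6 := by ring
  have hs := hstar z hzz₃ t hr1 hr2
  rw [abs_le] at hs
  -- the integral
  have hy1 : 1 ≤ (t : ℝ) / z := by
    rw [le_div_iff₀ hz0, one_mul]
    refine le_trans ?_ hr1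
    calc (z : ℝ) = (z : ℝ) ^ (1 : ℝ) := (Real.rpow_one _).symm
      _ ≤ (z : ℝ) ^ ((3 : ℝ) / 2) := Real.rpow_le_rpow_of_exponent_le hz1 (by norm_num)
  have hII : II z ((t : ℝ) / z) ≤ 1 + 3 * (e / 4) := by
    rcases lt_or_ge ((t : ℝ) / z) z with h4 | h4
    · rw [II_small hy1 h4]
      have : 0 ≤ 1 / ((t : ℝ) / z) := by positivity
      linarith
    · have h5 : 1 ≤ (z : ℝ) / 2 := by linarith
      have h6 := II_diff_le hK0 hF h5 (by linarith : (z : ℝ) / 2 ≤ (t : ℝ) / z)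
      have h7 := II_small (z := z) h5 (by linarith)
      have h8 : 1 / ((z : ℝ) / 2) ≤ e / 4 := by
        rw [div_le_iff₀ he0] at hz8
        rw [div_le_iff₀ (by linarith)]
        linarith
      have h9 : 0 ≤ 1 / ((z : ℝ) / 2) := by positivity
      have h10 : Real.log ((t : ℝ) / z) - Real.log ((z : ℝ) / 2) ≤ 2 * Real.log 2 + (2 / δ - 2) * lz := by
        rw [Real.log_div ht0.ne' hz0.ne', Real.log_div hz0.ne' (by norm_num), ← hlz]
        linarith
      have h11 : K * (Real.log ((t : ℝ) / z) - Real.log ((z : ℝ) / 2)) ≤ e / 4 + e / 4 := by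
        calc K * (Real.log ((t : ℝ) / z) - Real.log ((z : ℝ) / 2)) ≤ K * (2 * Real.log 2 + (2 / δ - 2) * lz) :=
              mul_le_mul_of_nonneg_left h10 hK0
          _ = 2 * (K * Real.log 2) + C * (2 / δ - 2) := by rw [← hKz]; ring
          _ ≤ 2 * (K * 1) + e / 4 := by
            have := mul_le_mul_of_nonneg_left hlog2 hK0
            linarith
          _ ≤ e / 4 + e / 4 := by linarith
      linarith
  have hG : Fr z t * Real.log t / t ≤ 1 + e := by linarith [hs.2]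
  rw [div_le_iff₀ ht0] at hG
  have hFW : Fr z t = Wf z 0 t := by rw [Fr_Wf, Nat.floor_natCast]
  rw [hFW] at hG
  obtain ⟨W, hW⟩ : ∃ W : ℝ, W = Wf z 0 t := ⟨_, rfl⟩
  rw [← hW] at hG ⊢
  have hW0 : 0 ≤ W := by rw [hW]; positivity
  have hc₁' := le_abs_self c₁
  have habs := abs_nonneg c₁
  have hmain : 2 * lz ≤ (1 + e) * Real.log t := by
    have h4 : (1 + e) * (2 * lz - c₁) ≤ (1 + e) * Real.log t := mul_le_mul_of_nonneg_left hlt2 (by linarith)
    have h5 : (1 + e) * |c₁| ≤ e * lz := by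
      have h6 : (1 + e) * |c₁| / e ≤ lz := by linarith
      rw [div_le_iff₀ he0] at h6
      linarith
    nlinarith
  have h4 : W * (2 * lz) ≤ (1 + e) ^ 2 * (gr * (1 - ε) * bud k) := by
    calc W * (2 * lz) ≤ W * ((1 + e) * Real.log t) := mul_le_mul_of_nonneg_left hmain hW0
      _ = (1 + e) * (W * Real.log t) := by ring
      _ ≤ (1 + e) * ((1 + e) * t) := mul_le_mul_of_nonneg_left hG (by linarith)
      _ = (1 + e) ^ 2 * t := by ring
      _ ≤ (1 + e) ^ 2 * (gr * (1 - ε) * bud k) := mul_le_mul_of_nonneg_left ht1 (by positivity)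
  have h5 : (1 + e) ^ 2 * (1 - ε) ≤ (1 - ε / 2) * (1 - e) := by
    have : ε = 16 * e := by rw [he]; ring
    rw [this]
    nlinarith [mul_pos he0 he0, mul_pos (mul_pos he0 he0) he0]
  have h6 : W * lz ≤ ((1 - ε / 2) * (Vf z * bud k)) * lz := by
    have h7 : 0 ≤ E * bud k := by positivity
    have h8 : 0 ≤ (1 - ε / 2) * bud k := by
      have : 0 ≤ 1 - ε / 2 := by linarith
      positivity
    calc W * lz ≤ (1 + e) ^ 2 * (1 - ε) * (E * bud k) := by
          rw [hgr] at h4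
          linarith
      _ ≤ (1 - ε / 2) * (1 - e) * (E * bud k) := mul_le_mul_of_nonneg_right h5 h7
      _ = (1 - ε / 2) * bud k * (E * (1 - e)) := by ring
      _ ≤ (1 - ε / 2) * bud k * (Vf z * lz) := mul_le_mul_of_nonneg_left hVz h8
      _ = ((1 - ε / 2) * (Vf z * bud k)) * lz := by ring
  exact le_of_mul_le_mul_right h6 hlz0

end Pool.Agent.Q120.CL
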