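import Pool.Agent.H38.LR.T3997.Q120.CL.C3
import Pool.Agent.H38.LR.T3997.Q120.GM.Free
import Pool.Agent.H38.LR.T3997.Q120.GM.Exists
import Pool.Agent.H38.LR.T3997.Q120.TD.Moderate

/-!
# The sieved models whose level grows: probabilities
-/

set_option autoImplicit false

namespace Pool.Agent.Q120.CL

open Finset Filter Topology MeasureTheory Pool.Agent.Q120.MG Pool.Agent.Q120.GM

/-- No prime below `z` divides `n`. -/
def Rough (z n : ℕ) : Prop := ∀ p : ℕ, p.Prime → p < z → ¬ p ∣ n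

open Classical in
/-- The probability of `n`: if `2 ^ k ≤ n < 2 ^ (k + 1)`, the sieving level is `z k`. -/
noncomputable def pr (z : ℕ → ℕ) (n : ℕ) : ℝ :=
  if Rough (z (Nat.log 2 n)) n then min 1 (1 / (Vf (z (Nat.log 2 n)) * Real.log n)) else 0

theorem pr_nonneg (z : ℕ → ℕ) (n : ℕ) : 0 ≤ pr z n := by
  unfold pr
  split_ifs with h
  · have h1 := Real.log_natCast_nonneg n
    have h2 := Vf_pos (z (Nat.log 2 n))
    exact le_min zero_le_one (by positivity)
  · exact le_rfl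

theorem pr_le_one (z : ℕ → ℕ) (n : ℕ) : pr z n ≤ 1 := by
  unfold pr
  split_ifs with h
  · exact min_le_left _ _
  · exact zero_le_one

theorem log_block {k n : ℕ} (h1 : 2 ^ k ≤ n) (h2 : n < 2 ^ (k + 1)) :
    Nat.log 2 n = k ∧ (k : ℝ) * Real.log 2 ≤ Real.log n ∧ Real.log n ≤ ((k : ℝ) + 1) * Real.log 2 := by
  have h0 : (0 : ℝ) < 2 ^ k := by positivity
  have h1' : (2 : ℝ) ^ k ≤ n := by exact_mod_cast h1
  have h2' : (n : ℝ) ≤ 2 ^ (k + 1) := by exact_mod_cast h2.le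
  refine ⟨Nat.log_eq_of_pow_le_of_lt_pow h1 h2, ?_, ?_⟩
  · rw [← Real.log_pow]
    exact Real.log_le_log h0 h1'
  · have h3 := Real.log_le_log (by linarith) h2'
    rw [Real.log_pow] at h3
    push_cast at h3
    exact h3

theorem pr_zero {z : ℕ → ℕ} {k n : ℕ} (h1 : 2 ^ k ≤ n) (h2 : n < 2 ^ (k + 1)) (h : ¬ Rough (z k) n) : pr z n = 0 := by
  unfold pr
  rw [(log_block h1 h2).1, if_neg h]

theorem pr_le {z : ℕ → ℕ} {k n : ℕ} (hk : 1 ≤ k) (h1 : 2 ^ k ≤ n) (h2 : n < 2 ^ (k + 1)) :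
    pr z n ≤ 1 / (Vf (z k) * (k * Real.log 2)) := by
  obtain ⟨e1, e2, e3⟩ := log_block h1 h2
  have hV := Vf_pos (z k)
  have hk0 : (0 : ℝ) < k := by exact_mod_cast hk
  have hl2 : 0 < Real.log 2 := Real.log_pos (by norm_num)
  unfold pr
  rw [e1]
  split_ifs with h
  · refine (min_le_right _ _).trans ?_
    apply one_div_le_one_div_of_le (by positivity)
    exact mul_le_mul_of_nonneg_left e2 hV.le
  · positivity

theorem le_pr {z : ℕ → ℕ} {k n : ℕ} (hk : 1 ≤ k) (hq : 1 ≤ Vf (z k) * (k * Real.log 2)) (h1 : 2 ^ k ≤ n) (h2 : n < 2 ^ (k + 1))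
    (h : Rough (z k) n) : 1 / (Vf (z k) * (((k : ℝ) + 1) * Real.log 2)) ≤ pr z n := by
  obtain ⟨e1, e2, e3⟩ := log_block h1 h2
  have hV := Vf_pos (z k)
  have hk0 : (0 : ℝ) < k := by exact_mod_cast hk
  have hl2 : 0 < Real.log 2 := Real.log_pos (by norm_num)
  have hln : 0 < Real.log (n : ℝ) := lt_of_lt_of_le (by positivity) e2
  unfold pr
  rw [e1, if_pos h]
  refine le_min ?_ ?_
  · rw [div_le_one (by positivity)]
    refine hq.trans (mul_le_mul_of_nonneg_left ?_ hV.le)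
    nlinarith
  · apply one_div_le_one_div_of_le (by positivity)
    exact mul_le_mul_of_nonneg_left e3 hV.le

open Classical in
theorem rough_card (z a t : ℕ) (β : ℝ) : ∑ n ∈ Ioc a (a + t), (if Rough z n then β else 0) = (Wf z a t : ℝ) * β := by
  rw [← sum_filter, sum_const, nsmul_eq_mul]
  rfl

variable {Ω : Type*} [MeasurableSpace Ω] {μ : Measure Ω} [IsProbabilityMeasure μ] {A : Ω → Set ℕ} {z : ℕ → ℕ}

/-- Upper bound for the probability of an empty window. -/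
theorem free_le (hA : IsModel μ (pr z) A) {k : ℕ} (hk : 1 ≤ k) (hq : 1 ≤ Vf (z k) * (k * Real.log 2)) {a t : ℕ}
    (h1 : 2 ^ k ≤ a + 1) (h2 : a + t < 2 ^ (k + 1)) :
    μ.real (free A (Ioc a (a + t))) ≤ Real.exp (-((Wf (z k) a t : ℝ) / (Vf (z k) * (((k : ℝ) + 1) * Real.log 2)))) := by
  classical
  rw [real_free hA]
  have h3 : ∀ n ∈ Ioc a (a + t), 1 - pr z n ≤ Real.exp (-(if Rough (z k) n then 1 / (Vf (z k) * (((k : ℝ) + 1) * Real.log 2)) else 0)) := by
    intro n hn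
    rw [mem_Ioc] at hn
    have e1 : 2 ^ k ≤ n := by omega
    have e2 : n < 2 ^ (k + 1) := by omega
    have e3 := Real.add_one_le_exp (-(if Rough (z k) n then 1 / (Vf (z k) * (((k : ℝ) + 1) * Real.log 2)) else 0))
    refine le_trans ?_ e3
    split_ifs with h
    · have := le_pr hk hq e1 e2 h
      linarith
    · have := pr_nonneg z n
      linarith
  refine (prod_le_prod (fun n _ => by linarith [pr_le_one z n]) h3).trans ?_
  rw [← Real.exp_sum, sum_neg_distrib, rough_card]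
  rw [mul_one_div]

/-- Lower bound for the probability of an empty window. -/
theorem le_free (hA : IsModel μ (pr z) A) {k : ℕ} (hk : 1 ≤ k) {q : ℝ} (hq : 1 / (Vf (z k) * (k * Real.log 2)) ≤ q)
    (hq2 : q ≤ 1 / 2) {a t : ℕ} (h1 : 2 ^ k ≤ a + 1) (h2 : a + t < 2 ^ (k + 1)) :
    Real.exp (-((1 + 2 * q) * ((Wf (z k) a t : ℝ) * (1 / (Vf (z k) * (k * Real.log 2)))))) ≤ μ.real (free A (Ioc a (a + t))) := by
  classical
  have hV := Vf_pos (z k)
  have hk0 : (0 : ℝ) < k := by exact_mod_cast hk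
  have hl2 : 0 < Real.log 2 := Real.log_pos (by norm_num)
  obtain ⟨β, hβ⟩ : ∃ β, β = 1 / (Vf (z k) * (k * Real.log 2)) := ⟨_, rfl⟩
  have hβ0 : 0 < β := by rw [hβ]; positivity
  rw [← hβ] at hq ⊢
  rw [real_free hA, ← rough_card, mul_sum, ← sum_neg_distrib, Real.exp_sum]
  refine prod_le_prod (fun _ _ => (Real.exp_pos _).le) (fun n hn => ?_)
  rw [mem_Ioc] at hn
  have e1 : 2 ^ k ≤ n := by omega
  have e2 : n < 2 ^ (k + 1) := by omega
  split_ifs with h
  · have h3 := pr_le (z := z) hk e1 e2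
    rw [← hβ] at h3
    have h4 := pr_nonneg z n
    have h5 := Pool.Agent.Q120.TD.one_sub_ge hβ0.le (hq.trans hq2)
    have h6 : Real.exp (-((1 + 2 * q) * β)) ≤ Real.exp (-(β + 2 * β ^ 2)) := by
      rw [Real.exp_le_exp]
      nlinarith
    linarith
  · rw [pr_zero e1 e2 h, mul_zero, neg_zero, Real.exp_zero, sub_zero]

end Pool.Agent.Q120.CL
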