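import Pool.Agent.H38.LR.T3997.Q120.CL.C4
import Pool.Agent.H38.LR.T3997.Q120.GM.Count
import Pool.Agent.H38.LR.T3997.Q120.GM.Gap

/-!
# The sieved models whose level grows: upper bound for the gaps
-/

set_option autoImplicit false

namespace Pool.Agent.Q120.CL

open Finset Filter Topology MeasureTheory Pool.Agent.Q120.MG Pool.Agent.Q120.GM

theorem pow_small' {a C : ℝ} (ha : a < 2) (ha0 : 0 ≤ a) : ∀ᶠ k : ℕ in atTop, C * ((k : ℝ) + 1) ^ a ≤ bud k := by
  filter_upwards [pow_small (C := |C| * 2 ^ a) ha, eventually_ge_atTop 1] with k h1 h2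
  have hk : (1 : ℝ) ≤ k := by exact_mod_cast h2
  refine le_trans ?_ h1
  have h3 : ((k : ℝ) + 1) ^ a ≤ 2 ^ a * (k : ℝ) ^ a := by
    rw [← Real.mul_rpow (by norm_num) (by linarith)]
    exact Real.rpow_le_rpow (by linarith) (by linarith) ha0
  calc C * ((k : ℝ) + 1) ^ a ≤ |C| * ((k : ℝ) + 1) ^ a := mul_le_mul_of_nonneg_right (le_abs_self C) (by positivity)
    _ ≤ |C| * (2 ^ a * (k : ℝ) ^ a) := mul_le_mul_of_nonneg_left h3 (abs_nonneg C)
    _ = |C| * 2 ^ a * (k : ℝ) ^ a := by ring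

/-- Lower bound for the number of rough numbers in windows which are not too short. -/
theorem win_low (low : LOW) {η : ℝ} (hη : 0 < η) (hη1 : η ≤ 1) : ∃ c : ℝ, 0 < c ∧ ∀ θ : ℝ, 0 < θ → ∀ᶠ k : ℕ in atTop, ∀ z : ℕ,
    (z : ℝ) ≤ ((k : ℝ) + 1) ^ (1 - η) → ∀ a r : ℕ, θ * bud k ≤ r → c * (Vf z * r) ≤ Wf z a r := by
  obtain ⟨c, hc, Y, h⟩ := low' low (s := 2 + 2 * η) (by linarith)
  refine ⟨c, hc, fun θ hθ => ?_⟩
  have hexp : (1 - η) * (2 + 2 * η) < 2 := by nlinarith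
  have hexp0 : 0 ≤ (1 - η) * (2 + 2 * η) := mul_nonneg (by linarith) (by linarith)
  filter_upwards [pow_small' (C := 1 / θ) hexp hexp0, bud_tendsto.eventually_ge_atTop (Y / θ)] with k h1 h2 z hz a r hr
  refine h z a r ?_ ?_
  · refine le_trans ?_ hr
    have h3 : (z : ℝ) ^ (2 + 2 * η) ≤ ((k : ℝ) + 1) ^ ((1 - η) * (2 + 2 * η)) := by
      rw [Real.rpow_mul (by positivity)]
      exact Real.rpow_le_rpow (Nat.cast_nonneg z) hz (by linarith)
    refine h3.trans ?_
    have h4 : θ * (1 / θ * ((k : ℝ) + 1) ^ ((1 - η) * (2 + 2 * η))) ≤ θ * bud k := mul_le_mul_of_nonneg_left h1 hθ.le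
    have h5 : θ * (1 / θ * ((k : ℝ) + 1) ^ ((1 - η) * (2 + 2 * η))) = ((k : ℝ) + 1) ^ ((1 - η) * (2 + 2 * η)) := by
      field_simp
    linarith
  · rw [div_le_iff₀ hθ] at h2
    have h3 : (Y : ℝ) ≤ r := by linarith
    exact_mod_cast h3

/-- The length of the windows for the upper bound. -/
noncomputable def tu (ε : ℝ) (z k : ℕ) : ℕ := ⌊(1 + ε) * Tk z k⌋₊

theorem in_block (low : LOW) {η ε : ℝ} (hη : 0 < η) (hη1 : η ≤ 1) (hε : 0 < ε) : ∃ c : ℝ, 0 < c ∧ ∀ᶠ k : ℕ in atTop, ∀ z : ℕ,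
    (z : ℝ) ≤ (k : ℝ) ^ (1 - η) → ∀ a : ℕ,
      (1 + c) * ((k : ℝ) * Real.log 2) ≤ (Wf z a (tu ε z k) : ℝ) / (Vf z * (((k : ℝ) + 1) * Real.log 2)) := by
  obtain ⟨c, hc, h⟩ := win_low low hη hη1
  obtain ⟨c₁, hc₁⟩ : ∃ c₁, c₁ = c * ε / 4 := ⟨_, rfl⟩
  have hc₁0 : 0 < c₁ := by rw [hc₁]; positivity
  refine ⟨c₁, hc₁0, ?_⟩
  filter_upwards [h (ε / 2) (by linarith), bud_tendsto.eventually_ge_atTop (2 * (ε + 2) / ε), hcast.eventually_ge_atTop ((1 + c₁) / c₁),
    eventually_gt_atTop 0] with k h1 h2 h3 hk0 z hz a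
  have hk0' : (0 : ℝ) < k := by exact_mod_cast hk0
  have hV := Vf_pos z
  have hb := bud_nonneg k
  have hl2 : 0 < Real.log 2 := Real.log_pos (by norm_num)
  have hT := le_Tk z k
  obtain ⟨T, hTd⟩ : ∃ T, T = Tk z k := ⟨_, rfl⟩
  obtain ⟨t, ht⟩ : ∃ t, t = tu ε z k := ⟨_, rfl⟩
  rw [← ht]
  rw [← hTd] at hT
  have hT0 : (0 : ℝ) ≤ T := Nat.cast_nonneg T
  have ht1 : (1 + ε) * T < t + 1 := by
    rw [ht, hTd]
    exact Nat.lt_floor_add_one _
  rw [div_le_iff₀ hε] at h2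
  have ht2 : (T : ℝ) + 1 + ε / 2 * bud k ≤ t := by nlinarith
  have htT : T + 1 ≤ t := by
    have : ((T + 1 : ℕ) : ℝ) ≤ t := by
      push_cast
      have : 0 ≤ ε / 2 * bud k := by positivity
      linarith
    exact_mod_cast this
  obtain ⟨r, hr⟩ := Nat.exists_eq_add_of_le htT
  have hr1 : ε / 2 * bud k ≤ r := by
    have : (t : ℝ) = T + 1 + r := by rw [hr]; push_cast; ring
    linarith
  have hz' : (z : ℝ) ≤ ((k : ℝ) + 1) ^ (1 - η) := hz.trans (Real.rpow_le_rpow hk0'.le (by linarith) (by linarith))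
  have h4 := h1 z hz' (a + (T + 1)) r hr1
  have h5 : Vf z * bud k < (Wf z a (T + 1) : ℝ) := by
    refine TT_lt ?_
    rw [hTd]
    exact Nat.lt_succ_self _
  have h6 : (Wf z a t : ℝ) = Wf z a (T + 1) + Wf z (a + (T + 1)) r := by
    rw [hr, Wf_add]
    push_cast
    rfl
  have h7 : (1 + 2 * c₁) * (Vf z * bud k) ≤ Wf z a t := by
    have h8 : c * (Vf z * (ε / 2 * bud k)) ≤ c * (Vf z * r) :=
      mul_le_mul_of_nonneg_left (mul_le_mul_of_nonneg_left hr1 hV.le) hc.le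
    have h9 : c * (Vf z * (ε / 2 * bud k)) = 2 * c₁ * (Vf z * bud k) := by rw [hc₁]; ring
    rw [h6]
    linarith
  rw [le_div_iff₀ (by positivity)]
  refine le_trans ?_ h7
  rw [div_le_iff₀ hc₁0] at h3
  have h8 : (1 + c₁) * ((k : ℝ) + 1) ≤ (1 + 2 * c₁) * k := by nlinarith
  calc (1 + c₁) * ((k : ℝ) * Real.log 2) * (Vf z * (((k : ℝ) + 1) * Real.log 2)) =
        ((1 + c₁) * ((k : ℝ) + 1)) * (k * (Vf z * (Real.log 2) ^ 2)) := by ring
    _ ≤ ((1 + 2 * c₁) * k) * (k * (Vf z * (Real.log 2) ^ 2)) := mul_le_mul_of_nonneg_right h8 (by positivity)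
    _ = (1 + 2 * c₁) * (Vf z * bud k) := by
      unfold bud
      ring

/-- An exponential bound. -/
theorem pow_exp {C c : ℝ} (hc : 0 < c) : ∀ᶠ k : ℕ in atTop, C * (k : ℝ) ^ 2 * Real.exp (-(c * k)) ≤ Real.exp (-(c / 2 * k)) := by
  have h1 : Tendsto (fun x : ℝ => x ^ 2 * Real.exp (-(c / 2 * x))) atTop (𝓝 0) := by
    have h2 := Real.tendsto_pow_mul_exp_neg_atTop_nhds_zero 2
    have h3 : Tendsto (fun x : ℝ => c / 2 * x) atTop atTop := Tendsto.const_mul_atTop (by linarith) tendsto_id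
    have h4 := (h2.comp h3).const_mul ((2 / c) ^ 2)
    rw [mul_zero] at h4
    refine h4.congr (fun x => ?_)
    simp only [Function.comp]
    field_simp
  have h2' := h1.const_mul C
  rw [mul_zero] at h2'
  have h2 := (h2'.comp hcast).eventually (ge_mem_nhds zero_lt_one)
  filter_upwards [h2] with k hk
  simp only [Function.comp] at hk
  have h3 : Real.exp (-(c * k)) = Real.exp (-(c / 2 * k)) * Real.exp (-(c / 2 * k)) := by
    rw [← Real.exp_add]
    congr 1
    ring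
  rw [h3]
  have h4 := Real.exp_pos (-(c / 2 * (k : ℝ)))
  nlinarith

theorem le_Vf2 (z : ℕ) : 1 / ((z : ℝ) + 1) ≤ Vf z := by
  rcases Nat.eq_zero_or_pos z with h | h
  · subst h
    have h1 : Vf 0 = 1 := by
      unfold Vf
      rw [range_zero, filter_empty, prod_empty]
    rw [h1]
    norm_num
  · refine le_trans ?_ (le_Vf' h)
    have h0 : (0 : ℝ) < z := by exact_mod_cast h
    exact one_div_le_one_div_of_le h0 (by linarith)

theorem q_small {z : ℕ → ℕ} (hz : Tendsto (fun k : ℕ => (z k : ℝ) / k) atTop (𝓝 0)) :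
    Tendsto (fun k : ℕ => 1 / (Vf (z k) * (k * Real.log 2))) atTop (𝓝 0) := by
  have h1 : Tendsto (fun k : ℕ => ((z k : ℝ) / k + 1 / k) / Real.log 2) atTop (𝓝 0) := by
    have h2 : Tendsto (fun k : ℕ => 1 / (k : ℝ)) atTop (𝓝 0) := tendsto_const_nhds.div_atTop hcast
    have h3 := (hz.add h2).div_const (Real.log 2)
    rw [add_zero, zero_div] at h3
    exact h3
  have hl2 : 0 < Real.log 2 := Real.log_pos (by norm_num)
  refine squeeze_zero' ?_ ?_ h1
  · filter_upwards with k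
    have := Vf_pos (z k)
    positivity
  · filter_upwards [eventually_gt_atTop 0] with k hk
    have hk0 : (0 : ℝ) < k := by exact_mod_cast hk
    have hV := Vf_pos (z k)
    have h2 := le_Vf2 (z k)
    have h3 : (0 : ℝ) < (z k : ℝ) + 1 := by positivity
    rw [div_le_iff₀ h3] at h2
    have h4 : ((z k : ℝ) / k + 1 / k) / Real.log 2 = ((z k : ℝ) + 1) / (k * Real.log 2) := by
      field_simp
    rw [h4, div_le_div_iff₀ (by positivity) (by positivity)]
    have h5 : 0 < (k : ℝ) * Real.log 2 := by positivity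
    nlinarith

theorem growth {z : ℕ → ℕ} {η : ℝ} (hη : 0 < η) (hz : ∀ᶠ k : ℕ in atTop, (z k : ℝ) ≤ (k : ℝ) ^ (1 - η)) :
    Tendsto (fun k : ℕ => (z k : ℝ) / k) atTop (𝓝 0) := by
  have h1 : Tendsto (fun k : ℕ => (k : ℝ) ^ (-η)) atTop (𝓝 0) := (tendsto_rpow_neg_atTop hη).comp hcast
  refine squeeze_zero' (Eventually.of_forall (fun k => by positivity)) ?_ h1
  filter_upwards [hz, eventually_gt_atTop 0] with k h2 hk
  have hk0 : (0 : ℝ) < k := by exact_mod_cast hk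
  rw [div_le_iff₀ hk0]
  refine h2.trans (le_of_eq ?_)
  nth_rewrite 3 [← Real.rpow_one (k : ℝ)]
  rw [← Real.rpow_add hk0]
  congr 1
  ring

theorem half_exp {c V W h D k : ℝ} (hc : 0 < c) (hV : 0 < V) (hk : 2 ≤ k) (hD0 : 0 < D) (hD : D ≤ k + 2) (hh : k ^ 2 / 12 ≤ h)
    (hW : c * (V * h) ≤ W) : c / 24 * k ≤ W / (V * D) := by
  rw [le_div_iff₀ (by positivity)]
  refine le_trans ?_ hW
  have h1 : c / 24 * k * (V * D) ≤ c / 24 * k * (V * (2 * k)) := by
    refine mul_le_mul_of_nonneg_left (mul_le_mul_of_nonneg_left (by linarith) hV.le) (by positivity)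
  have h2 : c * (V * (k ^ 2 / 12)) ≤ c * (V * h) := mul_le_mul_of_nonneg_left (mul_le_mul_of_nonneg_left hh hV.le) hc.le
  nlinarith

variable {Ω : Type*} [MeasurableSpace Ω] {μ : Measure Ω} [IsProbabilityMeasure μ] {A : Ω → Set ℕ} {z : ℕ → ℕ}

theorem free_mono (hA : IsModel μ (pr z) A) {V W : Finset ℕ} (h : V ⊆ W) : μ.real (free A W) ≤ μ.real (free A V) := by
  refine measureReal_mono (fun ω hω n hn => hω n (h hn)) (measure_ne_top _ _)

/-- **Upper bound for the gaps in the blocks.** -/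
theorem upper (low : LOW) (hA : IsModel μ (pr z) A) {η ε : ℝ} (hη : 0 < η) (hη1 : η ≤ 1)
    (hz : ∀ᶠ k : ℕ in atTop, (z k : ℝ) ≤ (k : ℝ) ^ (1 - η)) (hε : 0 < ε) (hε1 : ε ≤ 1) :
    ∀ᵐ ω ∂μ, ∀ᶠ k : ℕ in atTop, ∀ n : ℕ, 2 ^ k ≤ n → n < 2 ^ (k + 1) → ∃ m ∈ A ω, n < m ∧ m ≤ n + tu ε (z k) k := by
  classical
  obtain ⟨c₁, hc₁, hin⟩ := in_block low hη hη1 hε
  obtain ⟨c, hc, hwin⟩ := win_low low hη hη1
  obtain ⟨C, hC, hCk⟩ := Tk_bound low hη
  obtain ⟨c₂, hc₂⟩ : ∃ c₂, c₂ = c / 24 := ⟨_, rfl⟩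
  have hc₂0 : 0 < c₂ := by rw [hc₂]; positivity
  obtain ⟨B, hB⟩ : ∃ B : ℕ → Set Ω, B = fun k => ⋃ n ∈ Ico (2 ^ k) (2 ^ (k + 1)), free A (Ioc n (n + tu ε (z k) k)) := ⟨_, rfl⟩
  have hq := q_small (growth hη hz)
  have hbound : ∀ᶠ k : ℕ in atTop, μ.real (B k) ≤ ((2 : ℝ) ^ k) ^ (-c₁) + Real.exp (-(c₂ / 2 * k)) := by
    have g1 := hq.eventually (ge_mem_nhds zero_lt_one)
    have g2 := (tendsto_add_atTop_iff_nat (f := fun k : ℕ => 1 / (Vf (z k) * (k * Real.log 2))) 1).2 hq |>.eventually (ge_mem_nhds zero_lt_one)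
    have g3 := (tendsto_add_atTop_nat 1).eventually hz
    have g4 : ∀ᶠ k : ℕ in atTop, 2 * C * (k : ℝ) ^ 2 ≤ 2 ^ k := by
      have h1 : Tendsto (fun k : ℕ => (2 : ℝ) ^ k) atTop atTop := tendsto_pow_atTop_atTop_of_one_lt (by norm_num)
      have h2 : Tendsto (fun k : ℕ => 2 * C * ((k : ℝ) ^ 2 * (1 / 2) ^ k)) atTop (𝓝 0) := by
        have h3 := (tendsto_pow_const_mul_const_pow_of_abs_lt_one 2 (r := (1 / 2 : ℝ)) (by rw [abs_of_pos] <;> norm_num)).const_mul (2 * C)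
        rw [mul_zero] at h3
        exact h3
      filter_upwards [h2.eventually (ge_mem_nhds zero_lt_one)] with k hk
      have h4 : (0 : ℝ) < 2 ^ k := by positivity
      rw [one_div, inv_pow] at hk
      have h5 : 2 * C * ((k : ℝ) ^ 2 * ((2 : ℝ) ^ k)⁻¹) * 2 ^ k = 2 * C * (k : ℝ) ^ 2 := by field_simp
      nlinarith
    filter_upwards [hin, hwin (1 / 3) (by norm_num), hCk, hz, g1, g2, g3, g4, pow_exp (C := 2 * C) hc₂0,
      bud_tendsto.eventually_ge_atTop 9, eventually_ge_atTop 2] with k h1 h2 h3 h4 h5 h6 h7 h8 h9 h10 hk2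
    have hk1 : 1 ≤ k := by omega
    have hk2' : (2 : ℝ) ≤ k := by exact_mod_cast hk2
    have hk0 : (0 : ℝ) < k := by linarith
    have hl2 : 0 < Real.log 2 := Real.log_pos (by norm_num)
    have hl21 : Real.log 2 ≤ 1 := by linarith [Real.log_two_lt_d9]
    have hV := Vf_pos (z k)
    have hV' := Vf_pos (z (k + 1))
    have hb := bud_nonneg k
    have hbu := bud_upper k
    obtain ⟨t, ht⟩ : ∃ t, t = tu ε (z k) k := ⟨_, rfl⟩
    have hTb := le_Tk (z k) k
    have hTC := h3 (z k) h4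
    have htu : (t : ℝ) ≤ (1 + ε) * Tk (z k) k := by rw [ht]; exact Nat.floor_le (by positivity)
    have htl : (1 + ε) * Tk (z k) k < t + 1 := by rw [ht]; exact Nat.lt_floor_add_one _
    have htC : (t : ℝ) ≤ 2 * C * (k : ℝ) ^ 2 := by
      calc (t : ℝ) ≤ (1 + ε) * Tk (z k) k := htu
        _ ≤ 2 * (C * bud k) := mul_le_mul (by linarith) hTC (Nat.cast_nonneg _) (by norm_num)
        _ ≤ 2 * (C * (k : ℝ) ^ 2) := by
          have := mul_le_mul_of_nonneg_left hbu (by linarith : 0 ≤ C)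
          linarith
        _ = 2 * C * (k : ℝ) ^ 2 := by ring
    have ht2k : t ≤ 2 ^ k := by
      have : (t : ℝ) ≤ 2 ^ k := htC.trans h8
      exact_mod_cast this
    have hTn : (0 : ℝ) ≤ Tk (z k) k := Nat.cast_nonneg _
    have hεT : 0 ≤ ε * (Tk (z k) k : ℝ) := by positivity
    have htlow : bud k - 2 ≤ t := by linarith
    obtain ⟨h, hh⟩ : ∃ h, h = t / 2 := ⟨_, rfl⟩
    have hh1 : 2 * h ≤ t := by omega
    have hh2 : (t : ℝ) - 1 ≤ 2 * h := by
      have : t ≤ 2 * h + 1 := by omega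
      have : (t : ℝ) ≤ 2 * h + 1 := by exact_mod_cast this
      linarith
    have hh3 : 1 / 3 * bud k ≤ h := by linarith
    have hh4 : (k : ℝ) ^ 2 / 12 ≤ h := by linarith [bud_lower k]
    -- the single windows
    have hone : ∀ n ∈ Ico (2 ^ k) (2 ^ (k + 1)), μ.real (free A (Ioc n (n + t))) ≤
        ((2 : ℝ) ^ k) ^ (-(1 + c₁)) + (if 2 ^ (k + 1) ≤ n + t then Real.exp (-(c₂ * k)) else 0) := by
      intro n hn
      rw [mem_Ico] at hn
      by_cases hc1 : 2 ^ (k + 1) ≤ n + t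
      · rw [if_pos hc1]
        have hp0 : (0 : ℝ) ≤ ((2 : ℝ) ^ k) ^ (-(1 + c₁)) := by positivity
        rcases Nat.lt_or_ge (n + h) (2 ^ (k + 1)) with hc3 | hc3
        · have e1 : μ.real (free A (Ioc n (n + t))) ≤ μ.real (free A (Ioc n (n + h))) :=
            free_mono hA (Ioc_subset_Ioc_right (by omega))
          have e2 := free_le hA hk1 (by
            rw [div_le_one (by positivity)] at h5
            exact h5) (a := n) (t := h) (by omega) hc3
          have e3 := h2 (z k) (h4.trans (Real.rpow_le_rpow hk0.le (by linarith) (by linarith))) n h hh3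
          have e4 := half_exp (D := ((k : ℝ) + 1) * Real.log 2) hc hV hk2' (by positivity) (by nlinarith) hh4 e3
          rw [← hc₂] at e4
          have e5 : Real.exp (-((Wf (z k) n h : ℝ) / (Vf (z k) * (((k : ℝ) + 1) * Real.log 2)))) ≤ Real.exp (-(c₂ * k)) := by
            rw [Real.exp_le_exp]
            linarith
          linarith
        · have e1 : μ.real (free A (Ioc n (n + t))) ≤ μ.real (free A (Ioc (n + h) (n + h + h))) := by
            refine free_mono hA ?_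
            refine Ioc_subset_Ioc (by omega) (by omega)
          have e6 : 2 ^ (k + 1) = 2 * 2 ^ k := by rw [pow_succ]; ring
          have e7 : 2 ^ (k + 1 + 1) = 2 * 2 ^ (k + 1) := by rw [pow_succ]; ring
          have e2 := free_le hA (k := k + 1) (by omega) (by
            rw [div_le_one (by positivity)] at h6
            exact h6) (a := n + h) (t := h) (by omega) (by omega)
          have e3 := h2 (z (k + 1)) (by
            have := h7
            push_cast at this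
            exact this) (n + h) h hh3
          have e4 := half_exp (D := (((k + 1 : ℕ) : ℝ) + 1) * Real.log 2) hc hV' hk2' (by positivity) (by
            push_cast
            nlinarith) hh4 e3
          rw [← hc₂] at e4
          have e5 : Real.exp (-((Wf (z (k + 1)) (n + h) h : ℝ) / (Vf (z (k + 1)) * ((((k + 1 : ℕ) : ℝ) + 1) * Real.log 2)))) ≤
              Real.exp (-(c₂ * k)) := by
            rw [Real.exp_le_exp]
            linarith
          linarith
      · rw [if_neg hc1, add_zero]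
        have e2 := free_le hA hk1 (by
          rw [div_le_one (by positivity)] at h5
          exact h5) (a := n) (t := t) (by omega) (by omega)
        refine e2.trans ?_
        have e3 := h1 (z k) h4 n
        rw [← ht] at e3
        rw [Real.rpow_def_of_pos (by positivity), Real.exp_le_exp, Real.log_pow]
        linarith
    have hsum : μ.real (B k) ≤ ∑ n ∈ Ico (2 ^ k) (2 ^ (k + 1)), μ.real (free A (Ioc n (n + t))) := by
      rw [hB, ht]
      exact measureReal_biUnion_finset_le _ _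
    refine hsum.trans ((sum_le_sum hone).trans ?_)
    rw [sum_add_distrib, sum_const, Nat.card_Ico, ← sum_filter, sum_const, nsmul_eq_mul, nsmul_eq_mul]
    have e6 : 2 ^ (k + 1) - 2 ^ k = 2 ^ k := by
      rw [pow_succ]
      omega
    have e7 : ((Ico (2 ^ k) (2 ^ (k + 1))).filter (fun n => 2 ^ (k + 1) ≤ n + t)).card ≤ t := by
      have e8 : (Ico (2 ^ k) (2 ^ (k + 1))).filter (fun n => 2 ^ (k + 1) ≤ n + t) ⊆ Ico (2 ^ (k + 1) - t) (2 ^ (k + 1)) := by
        intro n hn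
        rw [mem_filter, mem_Ico] at hn
        rw [mem_Ico]
        omega
      refine (card_le_card e8).trans ?_
      rw [Nat.card_Ico]
      omega
    have e8 : (((Ico (2 ^ k) (2 ^ (k + 1))).filter (fun n => 2 ^ (k + 1) ≤ n + t)).card : ℝ) ≤ t := by exact_mod_cast e7
    have e9 : ((2 ^ (k + 1) - 2 ^ k : ℕ) : ℝ) * ((2 : ℝ) ^ k) ^ (-(1 + c₁)) = ((2 : ℝ) ^ k) ^ (-c₁) := by
      rw [e6]
      push_cast
      have h0 : (0 : ℝ) < 2 ^ k := by positivity
      nth_rewrite 1 [← Real.rpow_one ((2 : ℝ) ^ k)]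
      rw [← Real.rpow_add h0]
      congr 1
      ring
    rw [e9]
    have e10 := Real.exp_pos (-(c₂ * (k : ℝ)))
    have e11 : (((Ico (2 ^ k) (2 ^ (k + 1))).filter (fun n => 2 ^ (k + 1) ≤ n + t)).card : ℝ) * Real.exp (-(c₂ * k)) ≤
        2 * C * (k : ℝ) ^ 2 * Real.exp (-(c₂ * k)) := mul_le_mul_of_nonneg_right (e8.trans htC) e10.le
    linarith
  have hsm : Summable (fun k : ℕ => ((2 : ℝ) ^ k) ^ (-c₁) + Real.exp (-(c₂ / 2 * k))) := by
    refine (summable_two_pow hc₁).add ?_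
    have h1 : (fun k : ℕ => Real.exp (-(c₂ / 2 * k))) = fun k : ℕ => (Real.exp (-(c₂ / 2))) ^ k := by
      funext k
      rw [← Real.exp_nat_mul]
      congr 1
      ring
    rw [h1]
    refine summable_geometric_of_lt_one (Real.exp_pos _).le ?_
    rw [Real.exp_lt_one_iff]
    linarith
  filter_upwards [bc hsm hbound] with ω hω
  filter_upwards [hω] with k hk n hn1 hn2
  rw [hB] at hk
  by_contra hcon
  push Not at hcon
  refine hk (Set.mem_biUnion (x := n) (mem_coe.2 (mem_Ico.2 ⟨hn1, hn2⟩)) (fun m hm hmA => ?_))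
  rw [mem_Ioc] at hm
  have := hcon m hmA hm.1
  omega

end Pool.Agent.Q120.CL
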