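import Pool.Agent.H38.LR.T3997.Q120.CL.C5

/-!
# The sieved models whose level grows: long gaps
-/

set_option autoImplicit false

namespace Pool.Agent.Q120.CL

open Finset Filter Topology MeasureTheory Pool.Agent.Q120.MG Pool.Agent.Q120.GM

theorem ev_two (D : ℝ) (j : ℕ) {e : ℝ} (he : 0 < e) : ∀ᶠ k : ℕ in atTop, D * (k : ℝ) ^ j ≤ ((2 : ℝ) ^ k) ^ e := by
  have hl2 : 0 < Real.log 2 := Real.log_pos (by norm_num)
  have h1 := two_pow_tendsto.eventually (ev_power (D / Real.log 2 ^ j) j he)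
  filter_upwards [h1] with k hk
  push_cast at hk
  rw [Real.log_pow, mul_pow] at hk
  refine le_trans (le_of_eq ?_) hk
  field_simp

theorem PQ_le (z : ℕ) : PQ z ≤ 4 ^ z := by
  refine le_trans ?_ (primorial_le_four_pow z)
  unfold PQ primorial
  refine prod_le_prod_of_subset_of_one_le' ?_ (fun p hp _ => (mem_filter.1 hp).2.one_le)
  refine filter_subset_filter _ (range_subset_range.2 (by omega))

variable {Ω : Type*} [MeasurableSpace Ω] {μ : Measure Ω} [IsProbabilityMeasure μ] {A : Ω → Set ℕ} {z : ℕ → ℕ}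

/-- The step between the copies of a window. -/
noncomputable def DD (z t : ℕ) : ℕ := PQ z * (t + 1)

/-- The left end of the copy `j`. -/
noncomputable def nj (z t a k j : ℕ) : ℕ := a % PQ z + DD z t * (2 ^ k / DD z t + 1 + j)

theorem DD_pos (z t : ℕ) : 0 < DD z t := Nat.mul_pos (PQ_pos z) (by omega)

theorem nj_ge (z t a k j : ℕ) : 2 ^ k ≤ nj z t a k j := by
  unfold nj
  have h1 := Nat.lt_mul_div_succ (2 ^ k) (DD_pos z t)
  have h2 : DD z t * (2 ^ k / DD z t + 1) ≤ DD z t * (2 ^ k / DD z t + 1 + j) := Nat.mul_le_mul_left _ (by omega)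
  omega

theorem nj_lt {z t a k j : ℕ} (hj : j < 2 ^ k / DD z t - 2) : nj z t a k j + t < 2 ^ (k + 1) := by
  unfold nj
  have h0 : t + 1 ≤ DD z t := Nat.le_mul_of_pos_left _ (PQ_pos z)
  have h1 : a % PQ z < PQ z := Nat.mod_lt _ (PQ_pos z)
  have h2 : PQ z ≤ DD z t := Nat.le_mul_of_pos_right _ (by omega)
  have h3 : DD z t * (2 ^ k / DD z t + 1 + j) + DD z t + DD z t ≤ DD z t * (2 ^ k / DD z t) + DD z t * (2 ^ k / DD z t) := by
    have : DD z t * (2 ^ k / DD z t + 1 + j) + DD z t + DD z t = DD z t * (2 ^ k / DD z t + 1 + j + 2) := by ring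
    rw [this, ← mul_add]
    exact Nat.mul_le_mul_left _ (by omega)
  have h4 := Nat.mul_div_le (2 ^ k) (DD z t)
  have h5 : 2 ^ (k + 1) = 2 ^ k + 2 ^ k := by rw [pow_succ]; ring
  omega

theorem nj_window (z t a k j : ℕ) : Wf z (nj z t a k j) t = Wf z a t := by
  have h1 : nj z t a k j = a % PQ z + PQ z * ((t + 1) * (2 ^ k / DD z t + 1 + j)) := by
    unfold nj
    rw [show DD z t * (2 ^ k / DD z t + 1 + j) = PQ z * ((t + 1) * (2 ^ k / DD z t + 1 + j)) by
      unfold DD
      ring]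
  rw [h1, Wf_period', Wf_mod]

theorem nj_disj (z t a k : ℕ) {i j : ℕ} (h : i < j) : nj z t a k i + t < nj z t a k j := by
  unfold nj
  have h0 : t + 1 ≤ DD z t := Nat.le_mul_of_pos_left _ (PQ_pos z)
  have h1 : DD z t * (2 ^ k / DD z t + 1 + i) + DD z t ≤ DD z t * (2 ^ k / DD z t + 1 + j) := by
    have : DD z t * (2 ^ k / DD z t + 1 + i) + DD z t = DD z t * (2 ^ k / DD z t + 1 + i + 1) := by ring
    rw [this]
    exact Nat.mul_le_mul_left _ (by omega)
  omega

/-- **Long empty windows in the blocks.** -/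
theorem lower (hA : IsModel μ (pr z) A) (hz : Tendsto (fun k : ℕ => (z k : ℝ) / k) atTop (𝓝 0)) {ε : ℝ} (hε : 0 < ε)
    (hε1 : ε < 1) {C : ℝ} {t : ℕ → ℕ} (ht : ∀ᶠ k : ℕ in atTop, (t k : ℝ) ≤ C * (k : ℝ) ^ 2) :
    ∀ᵐ ω ∂μ, ∀ᶠ k : ℕ in atTop, (∃ a : ℕ, (Wf (z k) a (t k) : ℝ) ≤ (1 - ε) * (Vf (z k) * bud k)) →
      ∃ n : ℕ, 2 ^ k ≤ n ∧ n + t k < 2 ^ (k + 1) ∧ ∀ m ∈ A ω, n < m → n + t k < m := by
  classical
  obtain ⟨a, ha⟩ : ∃ a : ℕ → ℕ, ∀ k, (∃ a : ℕ, (Wf (z k) a (t k) : ℝ) ≤ (1 - ε) * (Vf (z k) * bud k)) →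
      (Wf (z k) (a k) (t k) : ℝ) ≤ (1 - ε) * (Vf (z k) * bud k) := by
    refine ⟨fun k => if h : ∃ a : ℕ, (Wf (z k) a (t k) : ℝ) ≤ (1 - ε) * (Vf (z k) * bud k) then h.choose else 0, fun k h => ?_⟩
    simp only [dif_pos h]
    exact h.choose_spec
  obtain ⟨n, hn⟩ : ∃ n : ℕ → ℕ → ℕ, n = fun k j => nj (z k) (t k) (a k) k j := ⟨_, rfl⟩
  obtain ⟨N, hN⟩ : ∃ N : ℕ → ℕ, N = fun k => 2 ^ k / DD (z k) (t k) - 2 := ⟨_, rfl⟩
  obtain ⟨E, hE⟩ : ∃ E : ℕ → ℕ → Set Ω, E = fun k j => free A (Ioc (n k j) (n k j + t k)) := ⟨_, rfl⟩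
  obtain ⟨B, hB⟩ : ∃ B : ℕ → Set Ω, B = fun k => if (∃ a : ℕ, (Wf (z k) a (t k) : ℝ) ≤ (1 - ε) * (Vf (z k) * bud k)) then
      ⋂ j ∈ range (N k), (E k j)ᶜ else ∅ := ⟨_, rfl⟩
  have hl2 : 0 < Real.log 2 := Real.log_pos (by norm_num)
  have hbound : ∀ᶠ k : ℕ in atTop, μ.real (B k) ≤ (Real.exp (-1)) ^ k := by
    have g1 := (q_small hz).eventually (ge_mem_nhds (show (0 : ℝ) < ε / 4 by linarith))
    have g2 := hz.eventually (ge_mem_nhds (show (0 : ℝ) < ε / 32 by linarith))
    have g3 := ev_two (|C| + 1) 2 (show 0 < ε / 16 by linarith)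
    have g4 := ev_two 2 1 (show 0 < 3 * ε / 8 by linarith)
    have g5 := ev_two 6 0 (show 0 < 1 - ε / 8 by linarith)
    filter_upwards [g1, g2, g3, g4, g5, ht, eventually_ge_atTop 1] with k h1 h2 h3 h4 h5 h6 hk1
    have hk0 : (0 : ℝ) < k := by exact_mod_cast hk1
    have hk1' : (1 : ℝ) ≤ k := by exact_mod_cast hk1
    have hV := Vf_pos (z k)
    rw [hB]
    simp only []
    split_ifs with hcase
    swap
    · rw [measureReal_empty]
      positivity
    obtain ⟨X, hX⟩ : ∃ X : ℝ, X = 2 ^ k := ⟨_, rfl⟩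
    have hX0 : 0 < X := by rw [hX]; positivity
    have hX1 : 1 ≤ X := by rw [hX]; exact one_le_pow₀ (by norm_num)
    rw [← hX] at h3 h4 h5
    have hlX : Real.log X = k * Real.log 2 := by rw [hX, Real.log_pow]
    obtain ⟨p, hp⟩ : ∃ p : ℝ, p = X ^ (-(1 - ε / 2)) := ⟨_, rfl⟩
    have hp0 : 0 < p := by rw [hp]; positivity
    -- every window is empty with probability at least p
    have hfac : ∀ j ∈ range (N k), p ≤ μ.real (E k j) := by
      intro j hj
      rw [mem_range, hN] at hj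
      have e1 : 2 ^ k ≤ n k j := by rw [hn]; exact nj_ge _ _ _ _ _
      have e2 : n k j + t k < 2 ^ (k + 1) := by rw [hn]; exact nj_lt hj
      have e3 := le_free hA hk1 h1 (by linarith) (a := n k j) (t := t k) (by omega) e2
      rw [hE]
      refine le_trans ?_ e3
      have e4 : Wf (z k) (n k j) (t k) = Wf (z k) (a k) (t k) := by rw [hn]; exact nj_window _ _ _ _ _
      rw [e4, hp, Real.rpow_def_of_pos hX0, Real.exp_le_exp, hlX]
      have e5 := ha k hcase
      have e6 : (Wf (z k) (a k) (t k) : ℝ) * (1 / (Vf (z k) * (k * Real.log 2))) ≤ (1 - ε) * (k * Real.log 2) := by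
        rw [mul_one_div, div_le_iff₀ (by positivity)]
        refine e5.trans (le_of_eq ?_)
        unfold bud
        ring
      have e7 : (1 + 2 * (ε / 4)) * ((Wf (z k) (a k) (t k) : ℝ) * (1 / (Vf (z k) * (k * Real.log 2)))) ≤
          (1 + 2 * (ε / 4)) * ((1 - ε) * (k * Real.log 2)) := mul_le_mul_of_nonneg_left e6 (by linarith)
      have e8 : 0 < (k : ℝ) * Real.log 2 := by positivity
      have e9 : (1 + 2 * (ε / 4)) * ((1 - ε) * (k * Real.log 2)) ≤ (1 - ε / 2) * (k * Real.log 2) := by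
        have : (1 + 2 * (ε / 4)) * (1 - ε) ≤ 1 - ε / 2 := by nlinarith
        calc (1 + 2 * (ε / 4)) * ((1 - ε) * (k * Real.log 2)) = ((1 + 2 * (ε / 4)) * (1 - ε)) * (k * Real.log 2) := by ring
          _ ≤ (1 - ε / 2) * (k * Real.log 2) := mul_le_mul_of_nonneg_right this e8.le
      linarith
    have hmeas : ∀ j ∈ range (N k), MeasurableSet[F A (Set.Ioc (n k j) (n k j + t k))] ((E k j)ᶜ) := by
      intro j _
      apply MeasurableSet.compl
      rw [hE]
      refine F_free (fun m hm => ?_)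
      rw [mem_Ioc] at hm
      exact hm
    have hdis : ∀ i ∈ range (N k), ∀ j ∈ range (N k), i ≠ j →
        Disjoint (Set.Ioc (n k i) (n k i + t k)) (Set.Ioc (n k j) (n k j + t k)) := by
      intro i _ j _ hij
      rw [Set.disjoint_left]
      intro m hm hm'
      rw [Set.mem_Ioc] at hm hm'
      rcases Nat.lt_or_gt_of_ne hij with h | h
      · have : n k i + t k < n k j := by rw [hn]; exact nj_disj _ _ _ _ h
        omega
      · have : n k j + t k < n k i := by rw [hn]; exact nj_disj _ _ _ _ h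
        omega
    rw [indep_many hA (range (N k)) (fun j => Set.Ioc (n k j) (n k j + t k)) hdis (fun j => (E k j)ᶜ) hmeas]
    have hfac2 : ∀ j ∈ range (N k), μ.real ((E k j)ᶜ) ≤ Real.exp (-p) := by
      intro j hj
      have e1 : MeasurableSet (E k j) := by rw [hE]; exact meas_free hA _
      rw [measureReal_compl e1, probReal_univ]
      have e2 := hfac j hj
      have e3 := Real.add_one_le_exp (-p)
      linarith
    refine (prod_le_prod (fun j _ => measureReal_nonneg) hfac2).trans ?_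
    rw [prod_const, card_range, ← Real.exp_nat_mul, ← Real.exp_nat_mul, Real.exp_le_exp]
    -- the number of the windows
    have hDD : (DD (z k) (t k) : ℝ) ≤ X ^ (ε / 8) := by
      have e1 : (PQ (z k) : ℝ) ≤ X ^ (ε / 16) := by
        have e2 : (PQ (z k) : ℝ) ≤ (4 : ℝ) ^ (z k) := by exact_mod_cast PQ_le (z k)
        refine e2.trans ?_
        rw [div_le_iff₀ hk0] at h2
        have e3 : (4 : ℝ) ^ (z k) = Real.exp ((z k) * Real.log 4) := by
          rw [← Real.rpow_natCast, Real.rpow_def_of_pos (by norm_num)]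
          congr 1
          ring
        have e4 : Real.log 4 = 2 * Real.log 2 := by
          rw [show (4 : ℝ) = 2 ^ 2 by norm_num, Real.log_pow]
          norm_num
        rw [e3, Real.rpow_def_of_pos hX0, Real.exp_le_exp, hlX, e4]
        nlinarith
      have e5 : ((t k : ℕ) : ℝ) + 1 ≤ X ^ (ε / 16) := by
        refine le_trans ?_ h3
        have e6 : C * (k : ℝ) ^ 2 ≤ |C| * (k : ℝ) ^ 2 := mul_le_mul_of_nonneg_right (le_abs_self C) (by positivity)
        have e7 : 1 ≤ (k : ℝ) ^ 2 := one_le_pow₀ hk1'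
        linarith
      unfold DD
      push_cast
      calc (PQ (z k) : ℝ) * ((t k : ℝ) + 1) ≤ X ^ (ε / 16) * X ^ (ε / 16) := mul_le_mul e1 e5 (by positivity) (by positivity)
        _ = X ^ (ε / 8) := by
          rw [← Real.rpow_add hX0]
          congr 1
          ring
    have hDD0 : (0 : ℝ) < DD (z k) (t k) := by exact_mod_cast DD_pos (z k) (t k)
    have hdiv : X ^ (1 - ε / 8) ≤ X / DD (z k) (t k) := by
      rw [le_div_iff₀ hDD0]
      calc X ^ (1 - ε / 8) * DD (z k) (t k) ≤ X ^ (1 - ε / 8) * X ^ (ε / 8) := mul_le_mul_of_nonneg_left hDD (by positivity)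
        _ = X := by
          rw [← Real.rpow_add hX0]
          norm_num
    have hNk : X ^ (1 - ε / 8) / 2 ≤ N k := by
      have e1 : X / DD (z k) (t k) - 1 ≤ ((2 ^ k / DD (z k) (t k) : ℕ) : ℝ) := by
        have e2 := Nat.lt_mul_div_succ (2 ^ k) (DD_pos (z k) (t k))
        have e3 : ((2 ^ k : ℕ) : ℝ) < ((DD (z k) (t k) * (2 ^ k / DD (z k) (t k) + 1) : ℕ) : ℝ) := by exact_mod_cast e2
        push_cast at e3
        rw [sub_le_iff_le_add, div_le_iff₀ hDD0, hX]
        push_cast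
        linarith
      have e2 : ((2 ^ k / DD (z k) (t k) : ℕ) : ℝ) ≤ (N k : ℝ) + 2 := by
        have : 2 ^ k / DD (z k) (t k) ≤ N k + 2 := by
          rw [hN]
          simp only []
          omega
        exact_mod_cast this
      rw [pow_zero, mul_one] at h5
      linarith
    have hNp : (k : ℝ) ≤ N k * p := by
      calc (k : ℝ) ≤ X ^ (3 * ε / 8) / 2 := by
            rw [pow_one] at h4
            linarith
        _ = X ^ (1 - ε / 8) / 2 * p := by
          rw [hp, div_mul_eq_mul_div, ← Real.rpow_add hX0]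
          congr 2
          ring
        _ ≤ N k * p := mul_le_mul_of_nonneg_right hNk hp0.le
    linarith
  have hsm : Summable (fun k : ℕ => (Real.exp (-1)) ^ k) := by
    refine summable_geometric_of_lt_one (Real.exp_pos _).le ?_
    rw [Real.exp_lt_one_iff]
    norm_num
  filter_upwards [bc hsm hbound] with ω hω
  filter_upwards [hω] with k hk hcase
  rw [hB] at hk
  simp only [if_pos hcase, Set.mem_iInter₂, Set.mem_compl_iff] at hk
  push Not at hk
  obtain ⟨j, hj, h1⟩ := hk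
  rw [mem_range] at hj
  rw [hE] at h1
  refine ⟨n k j, by rw [hn]; exact nj_ge _ _ _ _ _, ?_, fun m hm hnm => ?_⟩
  · rw [hn]
    rw [hN] at hj
    exact nj_lt hj
  · by_contra hcon
    exact h1 m (mem_Ioc.2 ⟨hnm, by omega⟩) hm

end Pool.Agent.Q120.CL
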